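import Mathlib
import Pool.Agent.Lib.helper23.EqC
import Pool.Agent.Lib.helper23.EqE

set_option autoImplicit false

namespace Pool.Agent.Results.MP_32ff52_an.Main

open scoped NNReal ENNReal
open MeasureTheory Pool.Agent.Lib.helper23

/-- Lipschitz real functions vanishing at the origin. -/
def Lip0 (X : Type) [NormedAddCommGroup X] : Submodule ℝ (X → ℝ) where
  carrier := {f | f 0 = 0 ∧ ∃ L, LipschitzWith L f}
  add_mem' := fun ⟨a, _, h⟩ ⟨b, _, k⟩ => ⟨by simp [a, b], _, h.add k⟩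
  zero_mem' := ⟨rfl, 0, LipschitzWith.const 0⟩
  smul_mem' := fun c _ ⟨a, _, h⟩ => ⟨by simp [a], _, (lipschitzWith_smul c).comp h⟩

/-- The equivariant dual lifting property for the group of all surjective linear isometries. -/
def EDL (X : Type) [NormedAddCommGroup X] [NormedSpace ℝ X] : Prop :=
  ∃ P : Lip0 X →ₗ[ℝ] (X →L[ℝ] ℝ),
    (∃ C : ℝ, ∀ (f : Lip0 X) (L : ℝ≥0), LipschitzWith L f.1 → ‖P f‖ ≤ C * L) ∧
    (∀ (f : Lip0 X) (φ : X →L[ℝ] ℝ), (∀ x, f.1 x = φ x) → P f = φ) ∧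
    ∀ (g : X ≃ₗᵢ[ℝ] X) (f f' : Lip0 X), (∀ x, f'.1 x = f.1 (g x)) → ∀ x, P f' x = P f (g x)

theorem toEP {X : Type} [NormedAddCommGroup X] [NormedSpace ℝ X] (h : EDL X) :
    Nonempty (EqA.EP X) := by
  classical
  obtain ⟨P, ⟨C, hC⟩, h1, h2⟩ := h
  have e : ∀ (f : X → ℝ) (hf : EqA.IsLip f),
      (if h : EqA.IsLip f then P ⟨f, h⟩ else 0) = P ⟨f, hf⟩ := fun f hf => dif_pos hf
  refine ⟨⟨fun f => if h : EqA.IsLip f then P ⟨f, h⟩ else 0, C, fun f g hf hg => ?_, fun φ => ?_,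
    fun f L h0 hL => ?_, fun g f hf x => ?_⟩⟩
  · rw [e _ hf, e _ hg, e _ (hf.add hg), ← map_add]
    rfl
  · rw [e _ ⟨map_zero φ, _, φ.lipschitz⟩]
    exact h1 _ φ fun _ => rfl
  · rw [e _ ⟨h0, L, hL⟩]
    exact hC _ L hL
  · rw [e _ hf, e _ (hf.comp g)]
    exact h2 g _ _ (fun _ => rfl) x

theorem l_one : EDL (lp (fun _ : ℕ => ℝ) 1) := by
  obtain ⟨Q, h1, h2⟩ := EqC.exists_Q
  have h3 : ∀ f hf n, Q f hf (EqB.e 1 n) = (f (EqB.e 1 n) - f (-EqB.e 1 n)) / 2 :=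
    fun f hf n => h1 f hf _ ⟨n, Or.inl rfl⟩
  refine ⟨⟨⟨fun f => Q f.1 f.2.2, fun f g => EqC.ext_e fun n => ?_⟩,
    fun c f => EqC.ext_e fun n => ?_⟩, ⟨1, fun f L hL => ?_⟩, fun f φ h => EqC.ext_e fun n => ?_,
    fun g f f' h x => ?_⟩
  · simp only [ContinuousLinearMap.add_apply, h3, Submodule.coe_add, Pi.add_apply]
    ring
  · simp only [ContinuousLinearMap.smul_apply, h3, Submodule.coe_smul, Pi.smul_apply, smul_eq_mul,
      RingHom.id_apply]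
    ring
  · rw [one_mul]
    exact h2 _ _ L hL
  · change Q f.1 f.2.2 _ = _
    rw [h3, h, h, map_neg]
    ring
  · have : Q f'.1 f'.2.2 = (Q f.1 f.2.2).comp g.toContinuousLinearEquiv.toContinuousLinearMap :=
      EqC.ext_e fun n => by
        change _ = Q f.1 f.2.2 (g (EqB.e 1 n))
        rw [h3, h, h, map_neg, h1 _ _ _ (EqC.isom_e g n)]
    exact DFunLike.congr_fun this x

theorem result (p : ℝ≥0∞) [Fact (1 ≤ p)] (hp : p ≠ ∞) :
    (EDL (lp (fun _ : ℕ => ℝ) p) ↔ p = 1) ∧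
      ¬ EDL (Lp ℝ p (volume.restrict (Set.Icc (0 : ℝ) 1))) := by
  refine ⟨⟨fun h => ?_, fun h => ?_⟩, fun h => ?_⟩
  · by_contra h1
    obtain ⟨P⟩ := toEP h
    exact (EqB.no_EP hp (lt_of_le_of_ne Fact.out (Ne.symm h1))).false P
  · subst h
    exact l_one
  · obtain ⟨P⟩ := toEP h
    exact (EqE.no_EP hp).false P

end Pool.Agent.Results.MP_32ff52_an.Main
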